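import Mathlib

/-!
Bivariate integer polynomials as lists of lists, with a verified lower bound on a box
(used for numeric facts of project SP by evaluation in the kernel).
-/

set_option autoImplicit false

namespace Pool.Agent.Helper97.SP

/-- value of the polynomial with coefficient list `p` -/
def ev : List ℤ → ℝ → ℝ
  | [], _ => 0
  | c :: p, u => (c : ℝ) + u * ev p u

/-- value of a bivariate polynomial: outer index = power of `w`, inner index = power of `u` -/
def ev2 : List (List ℤ) → ℝ → ℝ → ℝ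
  | [], _, _ => 0
  | P :: Q, u, w => ev P u + w * ev2 Q u w

def padd : List ℤ → List ℤ → List ℤ
  | [], q => q
  | a :: p, [] => a :: p
  | a :: p, b :: q => (a + b) :: padd p q

def psmul (a : ℤ) : List ℤ → List ℤ
  | [] => []
  | b :: q => (a * b) :: psmul a q

def pmul : List ℤ → List ℤ → List ℤ
  | [], _ => []
  | a :: p, q => padd (psmul a q) (0 :: pmul p q)

def add2 : List (List ℤ) → List (List ℤ) → List (List ℤ)
  | [], q => q
  | a :: p, [] => a :: p
  | a :: p, b :: q => (padd a b) :: add2 p q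

def smul2 (a : ℤ) : List (List ℤ) → List (List ℤ)
  | [] => []
  | b :: q => (psmul a b) :: smul2 a q

def pm2 (a : List ℤ) : List (List ℤ) → List (List ℤ)
  | [] => []
  | b :: q => (pmul a b) :: pm2 a q

def mul2 : List (List ℤ) → List (List ℤ) → List (List ℤ)
  | [], _ => []
  | a :: p, q => add2 (pm2 a q) ([] :: mul2 p q)

def pow2 (P : List (List ℤ)) : ℕ → List (List ℤ)
  | 0 => [[1]]
  | n + 1 => mul2 (pow2 P n) P

theorem ev_padd : ∀ (p q : List ℤ) (u : ℝ), ev (padd p q) u = ev p u + ev q u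
  | [], q, u => by simp [padd, ev]
  | a :: p, [], u => by simp [padd, ev]
  | a :: p, b :: q, u => by
      simp only [padd, ev, ev_padd p q u]
      push_cast
      ring

theorem ev_psmul (a : ℤ) : ∀ (q : List ℤ) (u : ℝ), ev (psmul a q) u = a * ev q u
  | [], u => by simp [psmul, ev]
  | b :: q, u => by
      simp only [psmul, ev, ev_psmul a q u]
      push_cast
      ring

theorem ev_pmul : ∀ (p q : List ℤ) (u : ℝ), ev (pmul p q) u = ev p u * ev q u
  | [], q, u => by simp [pmul, ev]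
  | a :: p, q, u => by
      simp only [pmul, ev, ev_padd, ev_psmul, ev_pmul p q u]
      push_cast
      ring

theorem ev2_add2 : ∀ (p q : List (List ℤ)) (u w : ℝ),
    ev2 (add2 p q) u w = ev2 p u w + ev2 q u w
  | [], q, u, w => by simp [add2, ev2]
  | a :: p, [], u, w => by simp [add2, ev2]
  | a :: p, b :: q, u, w => by
      simp only [add2, ev2, ev2_add2 p q u w, ev_padd]
      ring

theorem ev2_smul2 (a : ℤ) : ∀ (q : List (List ℤ)) (u w : ℝ),
    ev2 (smul2 a q) u w = a * ev2 q u w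
  | [], u, w => by simp [smul2, ev2]
  | b :: q, u, w => by
      simp only [smul2, ev2, ev2_smul2 a q u w, ev_psmul]
      ring

theorem ev2_pm2 (a : List ℤ) : ∀ (q : List (List ℤ)) (u w : ℝ),
    ev2 (pm2 a q) u w = ev a u * ev2 q u w
  | [], u, w => by simp [pm2, ev2]
  | b :: q, u, w => by
      simp only [pm2, ev2, ev2_pm2 a q u w, ev_pmul]
      ring

theorem ev2_mul2 : ∀ (p q : List (List ℤ)) (u w : ℝ),
    ev2 (mul2 p q) u w = ev2 p u w * ev2 q u w
  | [], q, u, w => by simp [mul2, ev2]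
  | a :: p, q, u, w => by
      simp only [mul2, ev2, ev2_add2, ev2_pm2, ev2_mul2 p q u w, ev]
      ring

theorem ev2_pow2 (P : List (List ℤ)) (u w : ℝ) : ∀ n : ℕ, ev2 (pow2 P n) u w = ev2 P u w ^ n
  | 0 => by simp [pow2, ev2, ev]
  | n + 1 => by rw [pow2, ev2_mul2, ev2_pow2 P u w n, pow_succ]

/-- lower bound on `[0,h]` -/
def lb (h : ℤ) : List ℤ → ℤ
  | [] => 0
  | c :: p => c + min 0 (h * lb h p)

/-- lower bound on `[0,h] × [0,k]` -/
def lb2 (h k : ℤ) : List (List ℤ) → ℤ
  | [] => 0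
  | P :: Q => lb h P + min 0 (k * lb2 h k Q)

theorem min_le_mul {h : ℤ} {b : ℤ} {u x : ℝ} (hu0 : 0 ≤ u) (hu : u ≤ h) (hx : (b : ℝ) ≤ x) :
    ((min 0 (h * b) : ℤ) : ℝ) ≤ u * x := by
  have h1 : u * (b : ℝ) ≤ u * x := mul_le_mul_of_nonneg_left hx hu0
  refine le_trans ?_ h1
  push_cast
  rcases le_total (0 : ℝ) (b : ℝ) with hb | hb
  · exact le_trans (min_le_left _ _) (mul_nonneg hu0 hb)
  · refine le_trans (min_le_right _ _) ?_
    nlinarith

theorem lb_le {h : ℤ} {u : ℝ} (hu0 : 0 ≤ u) (hu : u ≤ h) : ∀ p : List ℤ,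
    ((lb h p : ℤ) : ℝ) ≤ ev p u
  | [] => by simp [lb, ev]
  | c :: p => by
      have h1 := min_le_mul hu0 hu (lb_le hu0 hu p)
      simp only [lb, ev]
      push_cast at h1 ⊢
      linarith

theorem lb2_le {h k : ℤ} {u w : ℝ} (hu0 : 0 ≤ u) (hu : u ≤ h) (hw0 : 0 ≤ w) (hw : w ≤ k) :
    ∀ P : List (List ℤ), ((lb2 h k P : ℤ) : ℝ) ≤ ev2 P u w
  | [] => by simp [lb2, ev2]
  | P :: Q => by
      have h1 := min_le_mul hw0 hw (lb2_le hu0 hu hw0 hw Q)
      have h2 := lb_le hu0 hu P
      simp only [lb2, ev2]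
      push_cast at h1 ⊢
      linarith

end Pool.Agent.Helper97.SP
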