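import Pool.Agent.Helper89.SP.Defs
import Pool.Agent.Helper97.SP.BiPoly

/-!
Project SP, modules SP-10a and SP-10b: numeric facts for four equal coordinates.
-/

set_option autoImplicit false

open Real
open Pool.Agent.Helper97.SP

namespace Pool.Agent.Helper89.SP.E4

/-- the unit of the coordinates is `1/N` -/
abbrev N : ℤ := 100000
/-- the unit of the error bounds is `1/M` -/
abbrev M : ℤ := 1000000000

def tp (T : ℤ) : List (List ℤ) := [[T, 1]]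
def xp (X : ℤ) : List (List ℤ) := [[X], [1]]
def ep (T X : ℤ) : List (List ℤ) := add2 (smul2 4 (xp X)) (smul2 (-1) (tp T))
def ap (T X : ℤ) : List (List ℤ) := add2 [[N * N]] (smul2 (-1) (mul2 (tp T) (xp X)))
/-- `N^5 A W` -/
def awp (T X : ℤ) : List (List ℤ) :=
  mul2 (ap T X) (add2 (pow2 (ep T X) 3)
    (mul2 (ep T X) (add2 [[N * N]] (smul2 (-4) (pow2 (xp X) 2)))))

def pol0 (T X : ℤ) : List (List ℤ) :=
  add2 (smul2 2 (mul2 (pow2 (xp X) 3) (pow2 (add2 [[3 * N * N]] (smul2 (-173206) (tp T))) 3)))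
    (smul2 (-N ^ 4) (awp T X))

def pol1 (T X : ℤ) : List (List ℤ) :=
  add2 (smul2 4 (mul2 (pow2 (xp X) 3) (pow2 (add2 [[2 * N]] (smul2 (-1) (tp T))) 4)))
    (smul2 (-N ^ 2) (awp T X))

def pol2 (T X : ℤ) : List (List ℤ) :=
  add2 (mul2 (pow2 (xp X) 3)
    (add2 (pow2 (add2 [[5 * N * N]] (smul2 (-223607) (tp T))) 5)
      (smul2 (-5) (pow2 (add2 [[3 * N * N]] (smul2 (-223607) (tp T))) 5))))
    (smul2 (-40 * N ^ 8) (awp T X))

def cb (vn s : ℤ) : ℤ :=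
  min (1 + M * 1583 * vn ^ 2 / (90000 * N ^ 3 * s))
    (min (1 + M * 1172 * vn ^ 3 / (270000 * N ^ 3 * s ^ 3))
      (1 + M * 2641 * vn ^ 4 / (810000 * N ^ 3 * s ^ 5)))

/-- `N² M` times a bound of the error terms -/
def er (T0 T1 X0 X1 : ℤ) : ℤ :=
  (N * N - T0 * X0) * cb (N * N - 4 * X0 * X0) (4 * X0 - T1) +
    max (4 * T1 * X1 - 2 * N * N) 0 * cb (N * N - 4 * X0 * X0) (T0 - 2 * X1) +
    (2 * N * N + 4 * T1 * X1) * cb (N * N - 4 * X0 * X0) (T0 + 2 * X0)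

/-- admissibility of the box -/
def ok (T0 T1 X0 X1 : ℤ) : Bool :=
  decide (0 < T0) && decide (0 < X0) && decide (0 < 4 * X0 - T1) && decide (0 < T0 - 2 * X1) &&
    decide (2 * X1 ≤ N) && decide (T1 * X1 ≤ N * N) && decide (T1 ≤ 120000)

def test0 (T0 T1 X0 X1 : ℤ) : Bool :=
  ok T0 T1 X0 X1 &&
  decide (N ^ 7 * er T0 T1 X0 X1 < M * lb2 (T1 - T0) (X1 - X0) (pol0 T0 X0))

def test1 (T0 T1 X0 X1 : ℤ) : Bool :=
  ok T0 T1 X0 X1 &&
  decide (N ^ 5 * er T0 T1 X0 X1 < M * lb2 (T1 - T0) (X1 - X0) (pol1 T0 X0))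

def test2 (T0 T1 X0 X1 : ℤ) : Bool :=
  ok T0 T1 X0 X1 &&
  decide (40 * N ^ 11 * er T0 T1 X0 X1 < M * lb2 (T1 - T0) (X1 - X0) (pol2 T0 X0))

theorem div_le_ceil (a b : ℤ) (hb : 0 < b) : (a : ℝ) / b ≤ ((1 + a / b : ℤ) : ℝ) := by
  have hb' : (0 : ℝ) < b := by exact_mod_cast hb
  rw [div_le_iff₀ hb']
  have := Int.lt_ediv_add_one_mul_self a hb
  have h2 : a ≤ (1 + a / b) * b := by linarith
  exact_mod_cast h2

theorem frac_mono {c v v0 s s0 : ℝ} {m k : ℕ} (hc : 0 ≤ c) (hv : 0 ≤ v) (hv0 : v ≤ v0)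
    (hs0 : 0 < s0) (hs : s0 ≤ s) : c * v ^ m / s ^ k ≤ c * v0 ^ m / s0 ^ k := by
  have h1 : v ^ m ≤ v0 ^ m := pow_le_pow_left₀ hv hv0 m
  have h2 : s0 ^ k ≤ s ^ k := pow_le_pow_left₀ hs0.le hs k
  have h3 : 0 < s0 ^ k := pow_pos hs0 k
  have h4 : 0 ≤ v0 ^ m := pow_nonneg (hv.trans hv0) m
  exact div_le_div₀ (mul_nonneg hc h4) (mul_le_mul_of_nonneg_left h1 hc) h3 h2

theorem Cb_le {v σ : ℝ} {vn s : ℤ} (hv : 0 ≤ v) (hvn : v * (3 * N ^ 2) ≤ vn) (hs : 0 < s)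
    (hσ : (s : ℝ) ≤ N * σ) : Cb v σ * M ≤ cb vn s := by
  have hs' : (0 : ℝ) < s := by exact_mod_cast hs
  have hv0 : v ≤ vn / (3 * (100000 : ℝ) ^ 2) := by
    rw [le_div_iff₀ (by norm_num)]; simpa using hvn
  have hσ0 : (s : ℝ) / 100000 ≤ σ := by
    rw [div_le_iff₀ (by norm_num)]
    have : (s : ℝ) ≤ 100000 * σ := by simpa using hσ
    linarith
  have hs0 : (0 : ℝ) < (s : ℝ) / 100000 := by positivity
  have a1 := frac_mono (c := 0.1583) (m := 2) (k := 1) (by norm_num) hv hv0 hs0 hσ0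
  have a2 := frac_mono (c := 0.1172) (m := 3) (k := 3) (by norm_num) hv hv0 hs0 hσ0
  have a3 := frac_mono (c := 0.2641) (m := 4) (k := 5) (by norm_num) hv hv0 hs0 hσ0
  have b1 := div_le_ceil (M * 1583 * vn ^ 2) (90000 * N ^ 3 * s) (by positivity)
  have b2 := div_le_ceil (M * 1172 * vn ^ 3) (270000 * N ^ 3 * s ^ 3) (by positivity)
  have b3 := div_le_ceil (M * 2641 * vn ^ 4) (810000 * N ^ 3 * s ^ 5) (by positivity)
  have c1 : 0.1583 * ((vn : ℝ) / (3 * (100000 : ℝ) ^ 2)) ^ 2 / ((s : ℝ) / 100000) ^ 1 * M =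
      ((M * 1583 * vn ^ 2 : ℤ) : ℝ) / ((90000 * N ^ 3 * s : ℤ) : ℝ) := by
    push_cast
    field_simp
    norm_num
    try ring
  have c2 : 0.1172 * ((vn : ℝ) / (3 * (100000 : ℝ) ^ 2)) ^ 3 / ((s : ℝ) / 100000) ^ 3 * M =
      ((M * 1172 * vn ^ 3 : ℤ) : ℝ) / ((270000 * N ^ 3 * s ^ 3 : ℤ) : ℝ) := by
    push_cast
    field_simp
    norm_num
    try ring
  have c3 : 0.2641 * ((vn : ℝ) / (3 * (100000 : ℝ) ^ 2)) ^ 4 / ((s : ℝ) / 100000) ^ 5 * M =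
      ((M * 2641 * vn ^ 4 : ℤ) : ℝ) / ((810000 * N ^ 3 * s ^ 5 : ℤ) : ℝ) := by
    push_cast
    field_simp
    norm_num
    try ring
  have hM : (0 : ℝ) ≤ (M : ℤ) := by norm_num
  have e1 := (mul_le_mul_of_nonneg_right a1 hM).trans (c1.le.trans b1)
  have e2 := (mul_le_mul_of_nonneg_right a2 hM).trans (c2.le.trans b2)
  have e3 := (mul_le_mul_of_nonneg_right a3 hM).trans (c3.le.trans b3)
  rw [pow_one] at e1
  unfold Cb cb
  rw [Int.cast_min, Int.cast_min]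
  refine le_min ?_ (le_min ?_ ?_)
  · exact (mul_le_mul_of_nonneg_right (min_le_left _ _) hM).trans e1
  · exact (mul_le_mul_of_nonneg_right ((min_le_right _ _).trans (min_le_left _ _)) hM).trans e2
  · exact (mul_le_mul_of_nonneg_right ((min_le_right _ _).trans (min_le_right _ _)) hM).trans e3

theorem Cb_nonneg {v σ : ℝ} (hv : 0 ≤ v) (hσ : 0 < σ) : 0 ≤ Cb v σ := by
  unfold Cb
  refine le_min (by positivity) (le_min (by positivity) (by positivity))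

theorem cb_nonneg {vn s : ℤ} (hvn : 0 ≤ vn) (hs : 0 < s) : 0 ≤ cb vn s := by
  unfold cb
  refine le_min (by positivity) (le_min (by positivity) (by positivity))

theorem awp_ev {T X : ℤ} {t x : ℝ} :
    ev2 (awp T X) (N * t - T) (N * x - X) =
      (N : ℝ) ^ 5 * ((1 - t * x) * ((4 * x - t) ^ 3 + (4 * x - t) * (1 - 4 * x ^ 2))) := by
  simp only [awp, ap, ep, tp, xp, ev2_add2, ev2_mul2, ev2_smul2, ev2_pow2, ev2, ev]
  push_cast
  ring

/-- the error terms -/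
noncomputable def Er (t x : ℝ) : ℝ :=
  (1 - t * x) * Cb ((1 - 4 * x ^ 2) / 3) (4 * x - t) +
    max (4 * (t * x) - 2) 0 * Cb ((1 - 4 * x ^ 2) / 3) (t - 2 * x) +
    (2 + 4 * (t * x)) * Cb ((1 - 4 * x ^ 2) / 3) (t + 2 * x)

structure InBox (T0 T1 X0 X1 : ℤ) (t x : ℝ) : Prop where
  t0 : (T0 : ℝ) ≤ N * t
  t1 : N * t ≤ (T1 : ℝ)
  x0 : (X0 : ℝ) ≤ N * x
  x1 : N * x ≤ (X1 : ℝ)

structure Ok (T0 T1 X0 X1 : ℤ) : Prop where
  a : 0 < T0
  b : 0 < X0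
  c : 0 < 4 * X0 - T1
  d : 0 < T0 - 2 * X1
  e : 2 * X1 ≤ N
  f : T1 * X1 ≤ N * N
  g : T1 ≤ 120000

theorem Er_le {T0 T1 X0 X1 : ℤ} {t x : ℝ} (hb : InBox T0 T1 X0 X1 t x) (h : Ok T0 T1 X0 X1) :
    (N : ℝ) ^ 2 * M * Er t x ≤ er T0 T1 X0 X1 := by
  obtain ⟨t0, t1, x0, x1⟩ := hb
  obtain ⟨ha, hb, hc, hd, he, hf, -⟩ := h
  have ha' : (0 : ℝ) < T0 := by exact_mod_cast ha
  have hb' : (0 : ℝ) < X0 := by exact_mod_cast hb
  have hc' : (0 : ℝ) < 4 * X0 - T1 := by exact_mod_cast hc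
  have hd' : (0 : ℝ) < T0 - 2 * X1 := by exact_mod_cast hd
  have he' : (2 : ℝ) * X1 ≤ 100000 := by exact_mod_cast he
  have hf' : (T1 : ℝ) * X1 ≤ 100000 * 100000 := by exact_mod_cast hf
  have t0' : (T0 : ℝ) ≤ 100000 * t := by simpa using t0
  have t1' : 100000 * t ≤ (T1 : ℝ) := by simpa using t1
  have x0' : (X0 : ℝ) ≤ 100000 * x := by simpa using x0
  have x1' : 100000 * x ≤ (X1 : ℝ) := by simpa using x1
  have hxpos : 0 < x := by linarith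
  have htpos : 0 < t := by linarith
  have hx2 : 2 * x ≤ 1 := by linarith
  have hxx : x ^ 2 ≤ 1 / 4 := by
    have : x * x ≤ (1 / 2) * (1 / 2) := mul_le_mul (by linarith) (by linarith) hxpos.le (by norm_num)
    rw [pow_two]; linarith
  have hX0x : (X0 : ℝ) * X0 ≤ 100000 ^ 2 * x ^ 2 := by
    have := mul_le_mul x0' x0' hb'.le (by linarith)
    calc (X0 : ℝ) * X0 ≤ 100000 * x * (100000 * x) := this
      _ = _ := by ring
  have tx0 : (T0 : ℝ) * X0 ≤ 100000 ^ 2 * (t * x) := by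
    have := mul_le_mul t0' x0' hb'.le (by linarith)
    calc (T0 : ℝ) * X0 ≤ 100000 * t * (100000 * x) := this
      _ = _ := by ring
  have tx1 : 100000 ^ 2 * (t * x) ≤ (T1 : ℝ) * X1 := by
    have := mul_le_mul t1' x1' (by linarith) (by linarith)
    calc 100000 ^ 2 * (t * x) = 100000 * t * (100000 * x) := by ring
      _ ≤ _ := this
  have htx : t * x ≤ 1 := by linarith
  have htx0 : 0 ≤ t * x := by positivity
  set v : ℝ := (1 - 4 * x ^ 2) / 3 with hv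
  have hv0 : 0 ≤ v := by rw [hv]; linarith
  have hvn : v * (3 * ((N : ℤ) : ℝ) ^ 2) ≤ ((N * N - 4 * X0 * X0 : ℤ) : ℝ) := by
    rw [hv]; push_cast; linarith
  have hvn0 : 0 ≤ (N * N - 4 * X0 * X0 : ℤ) := by
    have : (0 : ℝ) ≤ ((N * N - 4 * X0 * X0 : ℤ) : ℝ) := le_trans (by positivity) hvn
    exact_mod_cast this
  have k1 := Cb_le (σ := 4 * x - t) hv0 hvn hc (by push_cast; linarith)
  have k2 := Cb_le (σ := t - 2 * x) hv0 hvn hd (by push_cast; linarith)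
  have k3 := Cb_le (σ := t + 2 * x) hv0 hvn (by linarith : 0 < T0 + 2 * X0)
    (by push_cast; linarith)
  have n1 := Cb_nonneg (σ := 4 * x - t) hv0 (by linarith)
  have n2 := Cb_nonneg (σ := t - 2 * x) hv0 (by linarith)
  have n3 := Cb_nonneg (σ := t + 2 * x) hv0 (by linarith)
  have e1 : (100000 : ℝ) ^ 2 * (1 - t * x) * (Cb v (4 * x - t) * (M : ℤ)) ≤
      (100000 * 100000 - T0 * X0) * (cb (N * N - 4 * X0 * X0) (4 * X0 - T1) : ℤ) :=
    mul_le_mul (by linarith) k1 (mul_nonneg n1 (by norm_num)) (by linarith)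
  have e2 : (100000 : ℝ) ^ 2 * max (4 * (t * x) - 2) 0 * (Cb v (t - 2 * x) * (M : ℤ)) ≤
      max (4 * (T1 : ℝ) * X1 - 2 * 100000 * 100000) 0 *
        (cb (N * N - 4 * X0 * X0) (T0 - 2 * X1) : ℤ) := by
    refine mul_le_mul ?_ k2 (mul_nonneg n2 (by norm_num)) (le_max_right _ _)
    rcases le_total (4 * (t * x) - 2) 0 with h | h
    · rw [max_eq_right h]; simp
    · rw [max_eq_left h]
      exact le_max_of_le_left (by linarith)
  have e3 : (100000 : ℝ) ^ 2 * (2 + 4 * (t * x)) * (Cb v (t + 2 * x) * (M : ℤ)) ≤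
      (2 * 100000 * 100000 + 4 * T1 * X1) *
        (cb (N * N - 4 * X0 * X0) (T0 + 2 * X0) : ℤ) :=
    mul_le_mul (by linarith) k3 (mul_nonneg n3 (by norm_num)) (by linarith)
  have g1 : (N : ℝ) ^ 2 * M * Er t x =
      (100000 : ℝ) ^ 2 * (1 - t * x) * (Cb v (4 * x - t) * (M : ℤ)) +
      (100000 : ℝ) ^ 2 * max (4 * (t * x) - 2) 0 * (Cb v (t - 2 * x) * (M : ℤ)) +
      (100000 : ℝ) ^ 2 * (2 + 4 * (t * x)) * (Cb v (t + 2 * x) * (M : ℤ)) := by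
    rw [Er, ← hv]
    push_cast
    ring
  have g2 : ((er T0 T1 X0 X1 : ℤ) : ℝ) =
      (100000 * 100000 - T0 * X0) * (cb (N * N - 4 * X0 * X0) (4 * X0 - T1) : ℤ) +
      max (4 * (T1 : ℝ) * X1 - 2 * 100000 * 100000) 0 *
        (cb (N * N - 4 * X0 * X0) (T0 - 2 * X1) : ℤ) +
      (2 * 100000 * 100000 + 4 * T1 * X1) *
        (cb (N * N - 4 * X0 * X0) (T0 + 2 * X0) : ℤ) := by
    rw [er]
    generalize cb (N * N - 4 * X0 * X0) (4 * X0 - T1) = c1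
    generalize cb (N * N - 4 * X0 * X0) (T0 - 2 * X1) = c2
    generalize cb (N * N - 4 * X0 * X0) (T0 + 2 * X0) = c3
    push_cast
    ring
  rw [g1, g2]
  exact add_le_add (add_le_add e1 e2) e3

theorem beats_iff (t x F : ℝ) : Beats4 t x F ↔
    (1 - t * x) * ((4 * x - t) ^ 3 + (4 * x - t) * (1 - 4 * x ^ 2)) + Er t x < 48 * x ^ 3 * F := by
  unfold Beats4 Er
  constructor <;> intro h <;> linarith

theorem sqrt3_le : √3 ≤ 1.73206 := by
  rw [Real.sqrt_le_left (by norm_num)]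
  norm_num

theorem sqrt5_le : √5 ≤ 2.23607 := by
  rw [Real.sqrt_le_left (by norm_num)]
  norm_num

theorem Mf_ge {t : ℝ} (h0 : 0 ≤ t) (h1 : t ≤ 1.2) : (3 - 1.73206 * t) ^ 3 / 24 ≤ Mf t := by
  unfold Mf
  have h2 : 0 ≤ 3 - 1.73206 * t := by nlinarith
  have h3 : 3 - 1.73206 * t ≤ 3 - √3 * t := by nlinarith [sqrt3_le]
  have := pow_le_pow_left₀ h2 h3 3
  linarith

theorem quint_mono {a b : ℝ} (ha : 0 ≤ a) (hab : a ≤ b) (hb : b ≤ 3) :
    (a + 2) ^ 5 - 5 * a ^ 5 ≤ (b + 2) ^ 5 - 5 * b ^ 5 := by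
  have hb0 : 0 ≤ b := ha.trans hab
  have h1 : b ^ 4 ≤ 3 * b ^ 3 := by
    have := mul_le_mul_of_nonneg_left hb (pow_nonneg hb0 3)
    calc b ^ 4 = b ^ 3 * b := by ring
      _ ≤ _ := this
      _ = _ := by ring
  have h2 : b ^ 3 * a ≤ 3 * (b ^ 2 * a) := by
    have := mul_le_mul_of_nonneg_left hb (mul_nonneg (pow_nonneg hb0 2) ha)
    calc b ^ 3 * a = b ^ 2 * a * b := by ring
      _ ≤ _ := this
      _ = _ := by ring
  have h3 : b ^ 2 * a ^ 2 ≤ 3 * (b * a ^ 2) := by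
    have := mul_le_mul_of_nonneg_left hb (mul_nonneg hb0 (pow_nonneg ha 2))
    calc b ^ 2 * a ^ 2 = b * a ^ 2 * b := by ring
      _ ≤ _ := this
      _ = _ := by ring
  have h4 : b * a ^ 3 ≤ 3 * a ^ 3 := mul_le_mul_of_nonneg_right hb (pow_nonneg ha 3)
  have h5 : a ^ 4 ≤ 3 * a ^ 3 := by
    have := mul_le_mul_of_nonneg_left (hab.trans hb) (pow_nonneg ha 3)
    calc a ^ 4 = a ^ 3 * a := by ring
      _ ≤ _ := this
      _ = _ := by ring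
  have h6 : b ^ 3 ≤ 3 * b ^ 2 := by
    have := mul_le_mul_of_nonneg_left hb (pow_nonneg hb0 2)
    calc b ^ 3 = b ^ 2 * b := by ring
      _ ≤ _ := this
      _ = _ := by ring
  have h7 : b ^ 2 * a ≤ 3 * (b * a) := by
    have := mul_le_mul_of_nonneg_left hb (mul_nonneg hb0 ha)
    calc b ^ 2 * a = b * a * b := by ring
      _ ≤ _ := this
      _ = _ := by ring
  have h8 : b * a ^ 2 ≤ 3 * a ^ 2 := mul_le_mul_of_nonneg_right hb (pow_nonneg ha 2)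
  have h9 : a ^ 3 ≤ 3 * a ^ 2 := by
    have := mul_le_mul_of_nonneg_left (hab.trans hb) (pow_nonneg ha 2)
    calc a ^ 3 = a ^ 2 * a := by ring
      _ ≤ _ := this
      _ = _ := by ring
  have h10 : a ^ 2 ≤ b ^ 2 := pow_le_pow_left₀ ha hab 2
  have h11 : 0 ≤ a * b := mul_nonneg ha hb0
  have h12 : 0 ≤ a ^ 2 := by positivity
  have key : 0 ≤ -4 * (b ^ 4 + b ^ 3 * a + b ^ 2 * a ^ 2 + b * a ^ 3 + a ^ 4) +
      10 * (b ^ 3 + b ^ 2 * a + b * a ^ 2 + a ^ 3) + 40 * (b ^ 2 + a * b + a ^ 2) +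
      80 * (b + a) + 80 := by
    linarith
  have := mul_nonneg (sub_nonneg.2 hab) key
  have e : (b - a) * (-4 * (b ^ 4 + b ^ 3 * a + b ^ 2 * a ^ 2 + b * a ^ 3 + a ^ 4) +
      10 * (b ^ 3 + b ^ 2 * a + b * a ^ 2 + a ^ 3) + 40 * (b ^ 2 + a * b + a ^ 2) +
      80 * (b + a) + 80) = ((b + 2) ^ 5 - 5 * b ^ 5) - ((a + 2) ^ 5 - 5 * a ^ 5) := by ring
  linarith

theorem T5_ge {t : ℝ} (h0 : 0 ≤ t) (h1 : t ≤ 1.2) :
    ((5 - 2.23607 * t) ^ 5 - 5 * (3 - 2.23607 * t) ^ 5) / 1920 ≤ T5 t := by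
  unfold T5
  have h2 : 0 ≤ 3 - 2.23607 * t := by linarith
  have h3 : √5 * t ≤ 2.23607 * t := mul_le_mul_of_nonneg_right sqrt5_le h0
  have h4 : 0 ≤ √5 * t := by positivity
  have hb0 : 0 ≤ 3 - √5 * t := by linarith
  rw [max_eq_left hb0]
  have key := quint_mono h2 (by linarith : 3 - 2.23607 * t ≤ 3 - √5 * t) (by linarith)
  have e1 : 3 - 2.23607 * t + 2 = 5 - 2.23607 * t := by ring
  have e2 : 3 - √5 * t + 2 = 5 - √5 * t := by ring
  rw [e1, e2] at key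
  linarith

theorem ok_sound {T0 T1 X0 X1 : ℤ} (h : ok T0 T1 X0 X1 = true) : Ok T0 T1 X0 X1 := by
  unfold ok at h
  simp only [Bool.and_eq_true, decide_eq_true_eq] at h
  obtain ⟨⟨⟨⟨⟨⟨a, b⟩, c⟩, d⟩, e⟩, f⟩, g⟩ := h
  exact ⟨a, b, c, d, e, f, g⟩

theorem pol0_ev {T X : ℤ} {t x : ℝ} :
    ev2 (pol0 T X) (N * t - T) (N * x - X) =
      (100000 : ℝ) ^ 9 * (48 * x ^ 3 * ((3 - 1.73206 * t) ^ 3 / 24) -
        ((1 - t * x) * ((4 * x - t) ^ 3 + (4 * x - t) * (1 - 4 * x ^ 2)))) := by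
  rw [pol0, ev2_add2, ev2_smul2, ev2_smul2, awp_ev]
  simp only [tp, xp, ev2_add2, ev2_mul2, ev2_smul2, ev2_pow2, ev2, ev]
  push_cast
  ring

theorem pol1_ev {T X : ℤ} {t x : ℝ} :
    ev2 (pol1 T X) (N * t - T) (N * x - X) =
      (100000 : ℝ) ^ 7 * (48 * x ^ 3 * ((2 - t) ^ 4 / 12) -
        ((1 - t * x) * ((4 * x - t) ^ 3 + (4 * x - t) * (1 - 4 * x ^ 2)))) := by
  rw [pol1, ev2_add2, ev2_smul2, ev2_smul2, awp_ev]
  simp only [tp, xp, ev2_add2, ev2_mul2, ev2_smul2, ev2_pow2, ev2, ev]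
  push_cast
  ring

theorem pol2_ev {T X : ℤ} {t x : ℝ} :
    ev2 (pol2 T X) (N * t - T) (N * x - X) =
      40 * (100000 : ℝ) ^ 13 * (48 * x ^ 3 *
        (((5 - 2.23607 * t) ^ 5 - 5 * (3 - 2.23607 * t) ^ 5) / 1920) -
        ((1 - t * x) * ((4 * x - t) ^ 3 + (4 * x - t) * (1 - 4 * x ^ 2)))) := by
  rw [pol2, ev2_add2, ev2_smul2, awp_ev]
  simp only [tp, xp, ev2_add2, ev2_mul2, ev2_smul2, ev2_pow2, ev2, ev]
  push_cast
  ring

theorem final {L E c : ℝ} {t x F G : ℝ} (hc : 0 < c) (hE : (100000 : ℝ) ^ 2 * 1000000000 * Er t x ≤ E)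
    (hL : L ≤ c * 100000 ^ 2 * (48 * x ^ 3 * G -
        ((1 - t * x) * ((4 * x - t) ^ 3 + (4 * x - t) * (1 - 4 * x ^ 2)))))
    (hK : c * E < 1000000000 * L) (hG : G ≤ F) (hx : 0 ≤ x) : Beats4 t x F := by
  rw [beats_iff]
  have h1 : c * ((100000 : ℝ) ^ 2 * 1000000000 * Er t x) ≤ c * E :=
    mul_le_mul_of_nonneg_left hE hc.le
  have h2 : c * ((100000 : ℝ) ^ 2 * 1000000000 * Er t x) <
      1000000000 * (c * 100000 ^ 2 * (48 * x ^ 3 * G -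
        ((1 - t * x) * ((4 * x - t) ^ 3 + (4 * x - t) * (1 - 4 * x ^ 2))))) := by linarith
  have h3 : Er t x < 48 * x ^ 3 * G -
        ((1 - t * x) * ((4 * x - t) ^ 3 + (4 * x - t) * (1 - 4 * x ^ 2))) := by
    by_contra hcon
    push Not at hcon
    have := mul_le_mul_of_nonneg_left hcon (by positivity : 0 ≤ 1000000000 * (c * 100000 ^ 2))
    linarith
  have h4 : 48 * x ^ 3 * G ≤ 48 * x ^ 3 * F := mul_le_mul_of_nonneg_left hG (by positivity)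
  linarith

/-- what follows from membership in an admissible box -/
theorem box_facts {T0 T1 X0 X1 : ℤ} {t x : ℝ} (hok : Ok T0 T1 X0 X1)
    (hb : InBox T0 T1 X0 X1 t x) : 0 ≤ (N : ℝ) * t - T0 ∧ (N : ℝ) * t - T0 ≤ ((T1 - T0 : ℤ) : ℝ) ∧
      0 ≤ (N : ℝ) * x - X0 ∧ (N : ℝ) * x - X0 ≤ ((X1 - X0 : ℤ) : ℝ) ∧ 0 ≤ t ∧ 0 ≤ x ∧
      t ≤ 1.2 ∧ (100000 : ℝ) ^ 2 * 1000000000 * Er t x ≤ er T0 T1 X0 X1 := by
  have hE := Er_le hb hok
  obtain ⟨t0, t1, x0, x1⟩ := hb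
  have hE' : (100000 : ℝ) ^ 2 * 1000000000 * Er t x ≤ er T0 T1 X0 X1 := by simpa using hE
  have hu0 : 0 ≤ (N : ℝ) * t - T0 := by linarith
  have hu1 : (N : ℝ) * t - T0 ≤ ((T1 - T0 : ℤ) : ℝ) := by push_cast at t1 ⊢; linarith
  have hw0 : 0 ≤ (N : ℝ) * x - X0 := by linarith
  have hw1 : (N : ℝ) * x - X0 ≤ ((X1 - X0 : ℤ) : ℝ) := by push_cast at x1 ⊢; linarith
  have htp : 0 ≤ t := by
    have : (0 : ℝ) < T0 := by exact_mod_cast hok.a
    have t0' : (T0 : ℝ) ≤ 100000 * t := by simpa using t0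
    linarith
  have hxp : 0 ≤ x := by
    have : (0 : ℝ) < X0 := by exact_mod_cast hok.b
    have x0' : (X0 : ℝ) ≤ 100000 * x := by simpa using x0
    linarith
  have htl : t ≤ 1.2 := by
    have : (T1 : ℝ) ≤ 120000 := by exact_mod_cast hok.g
    have t1' : 100000 * t ≤ (T1 : ℝ) := by simpa using t1
    linarith
  exact ⟨hu0, hu1, hw0, hw1, htp, hxp, htl, hE'⟩

theorem test0_sound {T0 T1 X0 X1 : ℤ} (h : test0 T0 T1 X0 X1 = true) {t x : ℝ}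
    (hb : InBox T0 T1 X0 X1 t x) : Beats4 t x (Mf t) := by
  rw [test0, Bool.and_eq_true, decide_eq_true_eq] at h
  obtain ⟨h1, h3⟩ := h
  obtain ⟨hu0, hu1, hw0, hw1, htp, hxp, htl, hE'⟩ := box_facts (ok_sound h1) hb
  have hl := lb2_le hu0 hu1 hw0 hw1 (pol0 T0 X0)
  rw [pol0_ev] at hl
  have h3' : ((N ^ 7 * er T0 T1 X0 X1 : ℤ) : ℝ) <
    ((M * lb2 (T1 - T0) (X1 - X0) (pol0 T0 X0) : ℤ) : ℝ) := by exact_mod_cast h3
  rw [Int.cast_mul, Int.cast_mul, Int.cast_pow] at h3'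
  exact final (c := 100000 ^ 7) (by norm_num) hE' (hl.trans (le_of_eq (by ring)))
    (by simpa using h3') (Mf_ge htp htl) hxp

theorem test1_sound {T0 T1 X0 X1 : ℤ} (h : test1 T0 T1 X0 X1 = true) {t x : ℝ}
    (hb : InBox T0 T1 X0 X1 t x) : Beats4 t x (T4 t) := by
  rw [test1, Bool.and_eq_true, decide_eq_true_eq] at h
  obtain ⟨h1, h3⟩ := h
  obtain ⟨hu0, hu1, hw0, hw1, htp, hxp, htl, hE'⟩ := box_facts (ok_sound h1) hb
  have hl := lb2_le hu0 hu1 hw0 hw1 (pol1 T0 X0)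
  rw [pol1_ev] at hl
  have h3' : ((N ^ 5 * er T0 T1 X0 X1 : ℤ) : ℝ) <
    ((M * lb2 (T1 - T0) (X1 - X0) (pol1 T0 X0) : ℤ) : ℝ) := by exact_mod_cast h3
  rw [Int.cast_mul, Int.cast_mul, Int.cast_pow] at h3'
  exact final (c := 100000 ^ 5) (G := (2 - t) ^ 4 / 12) (by norm_num) hE'
    (hl.trans (le_of_eq (by ring))) (by simpa using h3') (le_of_eq rfl) hxp

theorem test2_sound {T0 T1 X0 X1 : ℤ} (h : test2 T0 T1 X0 X1 = true) {t x : ℝ}
    (hb : InBox T0 T1 X0 X1 t x) : Beats4 t x (T5 t) := by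
  rw [test2, Bool.and_eq_true, decide_eq_true_eq] at h
  obtain ⟨h1, h3⟩ := h
  obtain ⟨hu0, hu1, hw0, hw1, htp, hxp, htl, hE'⟩ := box_facts (ok_sound h1) hb
  have hl := lb2_le hu0 hu1 hw0 hw1 (pol2 T0 X0)
  rw [pol2_ev] at hl
  have h3' : ((40 * N ^ 11 * er T0 T1 X0 X1 : ℤ) : ℝ) <
    ((M * lb2 (T1 - T0) (X1 - X0) (pol2 T0 X0) : ℤ) : ℝ) := by exact_mod_cast h3
  rw [Int.cast_mul, Int.cast_mul, Int.cast_mul, Int.cast_pow] at h3'
  exact final (c := 40 * 100000 ^ 11) (by norm_num) hE' (hl.trans (le_of_eq (by ring)))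
    (by simpa using h3') (T5_ge htp htl) hxp

/-- adaptive subdivision -/
def chk : ℕ → ℤ → ℤ → ℤ → ℤ → Bool
  | 0, _, _, _, _ => false
  | n + 1, T0, T1, X0, X1 =>
    test0 T0 T1 X0 X1 || test2 T0 T1 X0 X1 || test1 T0 T1 X0 X1 ||
    (if X1 - X0 ≤ T1 - T0 then
      chk n T0 ((T0 + T1) / 2) X0 X1 && chk n ((T0 + T1) / 2) T1 X0 X1
    else
      chk n T0 T1 X0 ((X0 + X1) / 2) && chk n T0 T1 ((X0 + X1) / 2) X1)

theorem chk_sound : ∀ (n : ℕ) {T0 T1 X0 X1 : ℤ}, chk n T0 T1 X0 X1 = true → ∀ {t x : ℝ},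
    InBox T0 T1 X0 X1 t x → Beats4 t x (Mf t) ∨ Beats4 t x (T4 t) ∨ Beats4 t x (T5 t)
  | 0, _, _, _, _, h, _, _, _ => by simp [chk] at h
  | n + 1, T0, T1, X0, X1, h, t, x, hb => by
      rw [chk, Bool.or_eq_true, Bool.or_eq_true, Bool.or_eq_true] at h
      rcases h with ((h | h) | h) | h
      · exact Or.inl (test0_sound h hb)
      · exact Or.inr (Or.inr (test2_sound h hb))
      · exact Or.inr (Or.inl (test1_sound h hb))
      · obtain ⟨t0, t1, x0, x1⟩ := hb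
        split_ifs at h
        · rw [Bool.and_eq_true] at h
          rcases le_total ((N : ℝ) * t) (((T0 + T1) / 2 : ℤ) : ℝ) with hc | hc
          · exact chk_sound n h.1 ⟨t0, hc, x0, x1⟩
          · exact chk_sound n h.2 ⟨hc, t1, x0, x1⟩
        · rw [Bool.and_eq_true] at h
          rcases le_total ((N : ℝ) * x) (((X0 + X1) / 2 : ℤ) : ℝ) with hc | hc
          · exact chk_sound n h.1 ⟨t0, t1, x0, hc⟩
          · exact chk_sound n h.2 ⟨t0, t1, hc, x1⟩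

theorem c_a : test0 102000 104000 41000 43000 = true := by decide +kernel
theorem c_b : test0 102000 106000 43000 44730 = true := by decide +kernel
theorem c_c : test0 102000 104000 44000 47000 = true := by decide +kernel
theorem c_d : chk 12 102000 120000 47000 50000 = true := by decide +kernel

end Pool.Agent.Helper89.SP.E4

namespace Pool.Agent.Helper89.SP

open E4

theorem fact_E4_a {t x : ℝ} (hx0 : 0.41 ≤ x) (hx1 : x ≤ 0.43) (ht0 : 1.02 ≤ t) (ht1 : t ≤ 1.04) :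
    Beats4 t x (Mf t) :=
  test0_sound c_a ⟨by push_cast; linarith, by push_cast; linarith, by push_cast; linarith,
    by push_cast; linarith⟩

theorem fact_E4_b {t x : ℝ} (hx0 : 0.43 ≤ x) (hx1 : x ≤ 0.4473) (ht0 : 1.02 ≤ t) (ht1 : t ≤ 1.06) :
    Beats4 t x (Mf t) :=
  test0_sound c_b ⟨by push_cast; linarith, by push_cast; linarith, by push_cast; linarith,
    by push_cast; linarith⟩

theorem fact_E4_c {t x : ℝ} (hx0 : 0.44 ≤ x) (hx1 : x ≤ 0.47) (ht0 : 1.02 ≤ t) (ht1 : t ≤ 1.04) :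
    Beats4 t x (Mf t) :=
  test0_sound c_c ⟨by push_cast; linarith, by push_cast; linarith, by push_cast; linarith,
    by push_cast; linarith⟩

theorem fact_E4_d {t x : ℝ} (hx0 : 0.47 ≤ x) (hx1 : x ≤ 0.5) (ht0 : 1.02 ≤ t) (ht1 : t ≤ 1.2) :
    Beats4 t x (Mf t) ∨ Beats4 t x (T4 t) ∨ Beats4 t x (T5 t) :=
  chk_sound 12 c_d ⟨by push_cast; linarith, by push_cast; linarith, by push_cast; linarith,
    by push_cast; linarith⟩

end Pool.Agent.Helper89.SP
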